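import Pool.Agent.helper97.NA.SpecE

/-!
# Row XTM of MP_baa4d7_al, block E: the alternating sum over the chains different from `{R}`
-/

set_option autoImplicit false

namespace Pool.Agent.NAB

open Pool.Agent.helper58.DC Pool.Agent.DI Pool.Agent.GR Pool.Agent.OB Pool.Agent.DR Pool.Agent.FI Pool.Agent.FI3 Pool.Agent.FI4 Pool.Agent.FI4I Pool.Agent.FI4E Pool.Agent.LE Pool.Agent.L5

theorem XTM_fm {ι : Type} [Fintype ι] (s : Set ι) [DecidablePred (· ∈ s)] (f : ι → ℂ) : ∑ᶠ i ∈ s, f i = ∑ i, if i ∈ s then f i else 0 := by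
  rw [finsum_mem_eq_finite_toFinset_sum f (Set.toFinite s), ← Finset.sum_filter]
  refine Finset.sum_congr ?_ fun _ _ => rfl
  ext i
  simp

theorem XTM (hXTO : XTO_stmt) (hXTC : XTC_stmt) (hBAA : BAA_stmt) (hTPR : Pool.Agent.FI.TPR_stmt) : XTM_stmt := by
  classical
  intro p e m M hM hme G _ _ χ hχ z x hU R hR hne α hα
  have : Fact p.Prime := ⟨hM.pr⟩
  have : Fintype G := Fintype.ofFinite G
  have : Fintype (Subgroup G) := Fintype.ofFinite _
  have : Fintype (Finset (Subgroup G)) := Fintype.ofFinite _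
  have hRn : nz R = ⊤ := top_le_iff.1 hR.1.2.2
  have hRp : IsPGroup p R := hR.1.2.1
  -- one pair `(g, E')`
  have hsub : ∀ (g : G) (E' : Subgroup G), am (al α g) E' = E' →
      ∑ᶠ C ∈ {C : Finset (Subgroup G) | (NCh p ⊤ R C ∧ C ≠ {R}) ∧ FxC (al α g) C},
        (-1 : ℂ) ^ (C.card + 1) * tB p e m M (⊤ : Subgroup G) (nrm C ⊓ nz E') E' χ (al α g) =
      - tB p e m M (⊤ : Subgroup G) (nz E') E' χ (al α g) := by
    intro g E' hE'
    exact hXTO p e m M hM hme G χ hχ z x hU R hRp hRn hne (al α g) E' hE'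
      (((hBAA G M p (al α g) R R R χ χ χ).1).2.2.2.2.2.2.2.2 hR)
  have hC := hXTC p e m M hM hme G (⊤ : Subgroup G) χ (by rw [(hTPR p M hM G).1]; exact hχ) z x hU α ((hBAA G M p α R R R χ χ χ).1.2.2.2.2.2.1) hα
  rw [Subgroup.coe_top, finsum_mem_univ, Subgroup.card_top] at hC
  simp only [top_inf_eq] at hC
  -- both sides as finite sums
  have e1 : ∑ᶠ C ∈ {C : Finset (Subgroup G) | NCh p ⊤ R C ∧ C ≠ {R}}, (-1 : ℂ) ^ (C.card + 1) *
      ∑ᶠ g ∈ {g : G | FxC (al α g) C}, ∑ᶠ E' ∈ {E' : Subgroup G | am (al α g) E' = E'},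
        tB p e m M (⊤ : Subgroup G) (nrm C ⊓ nz E') E' χ (al α g) =
      ∑ C : Finset (Subgroup G), ∑ g : G, ∑ E' : Subgroup G,
        if (NCh p ⊤ R C ∧ C ≠ {R}) ∧ FxC (al α g) C ∧ am (al α g) E' = E' then
          (-1 : ℂ) ^ (C.card + 1) * tB p e m M (⊤ : Subgroup G) (nrm C ⊓ nz E') E' χ (al α g) else 0 := by
    rw [XTM_fm]
    refine Finset.sum_congr rfl fun C _ => ?_
    by_cases h1 : NCh p ⊤ R C ∧ C ≠ {R}
    · rw [if_pos (show C ∈ {C : Finset (Subgroup G) | NCh p ⊤ R C ∧ C ≠ {R}} from h1), XTM_fm,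
        Finset.mul_sum]
      refine Finset.sum_congr rfl fun g _ => ?_
      by_cases h2 : FxC (al α g) C
      · rw [if_pos (show g ∈ {g : G | FxC (al α g) C} from h2), XTM_fm, Finset.mul_sum]
        refine Finset.sum_congr rfl fun E' _ => ?_
        by_cases h3 : am (al α g) E' = E'
        · rw [if_pos (show E' ∈ {E' : Subgroup G | am (al α g) E' = E'} from h3), if_pos ⟨h1, h2, h3⟩]
        · rw [if_neg (show ¬ E' ∈ {E' : Subgroup G | am (al α g) E' = E'} from h3), if_neg fun hh => h3 hh.2.2, mul_zero]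
      · rw [if_neg (show ¬ g ∈ {g : G | FxC (al α g) C} from h2), mul_zero]
        exact (Finset.sum_eq_zero fun h _ => if_neg fun hh => h2 hh.2.1).symm
    · rw [if_neg (show ¬ C ∈ {C : Finset (Subgroup G) | NCh p ⊤ R C ∧ C ≠ {R}} from h1)]
      exact (Finset.sum_eq_zero fun g _ => Finset.sum_eq_zero fun h _ =>
        if_neg fun hh => h1 hh.1).symm
  have e2 : ∑ᶠ g : G, ∑ᶠ E' ∈ {E' : Subgroup G | am (al α g) E' = E'},
      tB p e m M (⊤ : Subgroup G) (nz E') E' χ (al α g) = ∑ g : G, ∑ E' : Subgroup G,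
        if am (al α g) E' = E' then tB p e m M (⊤ : Subgroup G) (nz E') E' χ (al α g) else 0 := by
    rw [finsum_eq_sum_of_fintype]
    exact Finset.sum_congr rfl fun g _ => XTM_fm _ _
  rw [e1, ← hC, e2, Finset.sum_comm, ← Finset.sum_neg_distrib]
  refine Finset.sum_congr rfl fun g _ => ?_
  rw [Finset.sum_comm, ← Finset.sum_neg_distrib]
  refine Finset.sum_congr rfl fun E' _ => ?_
  by_cases h3 : am (al α g) E' = E'
  · rw [if_pos h3, ← hsub g E' h3, XTM_fm]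
    refine Finset.sum_congr rfl fun C _ => ?_
    by_cases h4 : (NCh p ⊤ R C ∧ C ≠ {R}) ∧ FxC (al α g) C
    · rw [if_pos ⟨h4.1, h4.2, h3⟩,
        if_pos (show C ∈ {C : Finset (Subgroup G) | (NCh p ⊤ R C ∧ C ≠ {R}) ∧ FxC (al α g) C} from h4)]
    · rw [if_neg fun hh => h4 ⟨hh.1, hh.2.1⟩,
        if_neg (show ¬ C ∈ {C : Finset (Subgroup G) | (NCh p ⊤ R C ∧ C ≠ {R}) ∧ FxC (al α g) C} from h4)]
  · rw [if_neg h3, neg_zero]
    exact Finset.sum_eq_zero fun C _ => if_neg fun hh => h3 hh.2.2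

end Pool.Agent.NAB
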